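import Pool.Agent.Helper46.CU.Stmts

set_option autoImplicit false

/-! Module PELL: few solutions of `b² + b + 1 = D s²`. -/

namespace Pool.Agent.Helper46.CU

open Finset

lemma pell_mod : ∀ u1 u2 s1 s2 : ZMod 3, s1 ≠ 0 → s2 ≠ 0 → u1 * s1 = u2 * s2 →
    u1 * s2 = u2 * s1 := by decide

lemma pell_ns {D b s : ℤ} (h : b ^ 2 + b + 1 = D * s ^ 2) : ¬ (3 : ℤ) ∣ s := by
  rintro ⟨k, rfl⟩
  have h1 : (2 * b + 1) ^ 2 + 3 = 36 * (D * k ^ 2) := by linear_combination 4 * h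
  have h2 : (3 : ℤ) ∣ (2 * b + 1) ^ 2 := by
    refine ⟨12 * (D * k ^ 2) - 1, ?_⟩
    linarith
  have h3 : (3 : ℤ) ∣ 2 * b + 1 := Int.prime_three.dvd_of_dvd_pow h2
  obtain ⟨m, hm⟩ := h3
  rw [hm] at h1
  have h4 : 9 * m ^ 2 + 3 = 36 * (D * k ^ 2) := by linear_combination h1
  omega

lemma pell_key {D b1 b2 s1 s2 : ℤ} (hD : 1 ≤ D) (hb1 : 1 ≤ b1) (hb : b1 < b2) (hs1 : 0 ≤ s1)
    (hs2 : 0 ≤ s2) (h1 : b1 ^ 2 + b1 + 1 = D * s1 ^ 2) (h2 : b2 ^ 2 + b2 + 1 = D * s2 ^ 2)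
    (hc : (3 : ℤ) ∣ (2 * b1 + 1) * s1 - (2 * b2 + 1) * s2) : 2 * b1 + 1 ≤ b2 := by
  have n1 := pell_ns h1
  have n2 := pell_ns h2
  have hcc : (3 : ℤ) ∣ (2 * b2 + 1) * s1 - (2 * b1 + 1) * s2 := by
    have e1 := (ZMod.intCast_zmod_eq_zero_iff_dvd s1 3).not.2 (by simpa using n1)
    have e2 := (ZMod.intCast_zmod_eq_zero_iff_dvd s2 3).not.2 (by simpa using n2)
    have e3 : (((2 * b1 + 1) * s1 - (2 * b2 + 1) * s2 : ℤ) : ZMod 3) = 0 :=
      (ZMod.intCast_zmod_eq_zero_iff_dvd _ 3).2 (by simpa using hc)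
    have e4 := pell_mod (((2 * b1 + 1 : ℤ)) : ZMod 3) (((2 * b2 + 1 : ℤ)) : ZMod 3) s1 s2 e1 e2
      (by
        have e5 := e3
        push_cast at e5 ⊢
        linear_combination e5)
    have e6 : (((2 * b2 + 1) * s1 - (2 * b1 + 1) * s2 : ℤ) : ZMod 3) = 0 := by
      push_cast at e4 ⊢
      linear_combination -e4
    have := (ZMod.intCast_zmod_eq_zero_iff_dvd _ 3).1 e6
    simpa using this
  have hs1' : 0 < s1 := by
    rcases hs1.eq_or_lt with h | h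
    · rw [← h] at h1
      nlinarith
    · exact h
  have hs12 : s1 < s2 := by
    by_contra hcon
    push Not at hcon
    have h3 : s2 ^ 2 ≤ s1 ^ 2 := by nlinarith
    have h4 : D * s2 ^ 2 ≤ D * s1 ^ 2 := mul_le_mul_of_nonneg_left h3 (by linarith)
    nlinarith
  obtain ⟨W, hW⟩ := hcc
  obtain ⟨U1, hU1⟩ : ∃ U1, U1 = 2 * b1 + 1 := ⟨_, rfl⟩
  obtain ⟨U2, hU2⟩ : ∃ U2, U2 = 2 * b2 + 1 := ⟨_, rfl⟩
  rw [← hU1, ← hU2] at hW
  have g1 : U1 ^ 2 + 3 = 4 * D * s1 ^ 2 := by rw [hU1]; linear_combination 4 * h1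
  have g2 : U2 ^ 2 + 3 = 4 * D * s2 ^ 2 := by rw [hU2]; linear_combination 4 * h2
  have hU1p : 0 < U1 := by linarith
  have hU2p : 0 < U2 := by linarith
  have g3 : (U2 * s1 - U1 * s2) * (U2 * s1 + U1 * s2) = 3 * (s2 ^ 2 - s1 ^ 2) := by
    linear_combination s1 ^ 2 * g2 - s2 ^ 2 * g1
  have g4 : W * (U2 * s1 + U1 * s2) = s2 ^ 2 - s1 ^ 2 := by
    rw [hW] at g3
    linarith
  have g5 : 0 < U2 * s1 + U1 * s2 := by positivity
  have g6 : 0 < s2 ^ 2 - s1 ^ 2 := by nlinarith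
  have g7 : 1 ≤ W := by
    by_contra hcon
    push Not at hcon
    have : W ≤ 0 := by linarith
    nlinarith
  have g8 : U1 * s2 < U2 * s1 := by linarith
  have g9 : 2 * U1 * s2 < s2 ^ 2 := by
    have h3 : U2 * s1 + U1 * s2 ≤ W * (U2 * s1 + U1 * s2) := by nlinarith
    have h4 : 0 < s1 ^ 2 := by positivity
    nlinarith
  have hs2' : 0 < s2 := by linarith
  have g10 : 2 * U1 < s2 := by nlinarith
  have g11 : s2 ≤ U2 := by
    by_contra hcon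
    push Not at hcon
    have h3 : U2 ^ 2 < s2 ^ 2 := by nlinarith
    have h4 : 4 * s2 ^ 2 ≤ 4 * D * s2 ^ 2 := by nlinarith [sq_nonneg s2]
    have h5 : 1 ≤ s2 ^ 2 := by nlinarith
    linarith
  linarith

theorem st_PELL : ST_PELL := by
  intro D B hD hB
  classical
  have hmem : ∀ b, b ∈ pellS D B ↔ (1 ≤ b ∧ b ≤ B) ∧ ∃ s : ℕ, b ^ 2 + b + 1 = D * s ^ 2 := by
    intro b
    unfold pellS
    rw [Finset.mem_filter, Finset.mem_Icc]
  have hch : ∀ b, ∃ s : ℕ, b ∈ pellS D B → b ^ 2 + b + 1 = D * s ^ 2 := by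
    intro b
    by_cases h : b ∈ pellS D B
    · obtain ⟨-, s, hs⟩ := (hmem b).1 h
      exact ⟨s, fun _ => hs⟩
    · exact ⟨0, fun h' => absurd h' h⟩
  choose s hs using hch
  have hkey : ∀ b1 ∈ pellS D B, ∀ b2 ∈ pellS D B, b1 < b2 →
      (2 * b1 + 1) * s b1 % 3 = (2 * b2 + 1) * s b2 % 3 →
      Nat.log 2 (b1 + 1) < Nat.log 2 (b2 + 1) := by
    intro b1 hb1 b2 hb2 hlt hc
    have k1 := hs b1 hb1
    have k2 := hs b2 hb2
    have k3 := ((hmem b1).1 hb1).1.1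
    have k4 : (3 : ℤ) ∣ (2 * (b1 : ℤ) + 1) * (s b1 : ℤ) - (2 * (b2 : ℤ) + 1) * (s b2 : ℤ) := by
      obtain ⟨x, hx⟩ : ∃ x, x = (2 * b1 + 1) * s b1 := ⟨_, rfl⟩
      obtain ⟨y, hy⟩ : ∃ y, y = (2 * b2 + 1) * s b2 := ⟨_, rfl⟩
      rw [← hx, ← hy] at hc
      have e1 : (2 * (b1 : ℤ) + 1) * (s b1 : ℤ) = (x : ℤ) := by rw [hx]; push_cast; ring
      have e2 : (2 * (b2 : ℤ) + 1) * (s b2 : ℤ) = (y : ℤ) := by rw [hy]; push_cast; ring
      rw [e1, e2]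
      omega
    have k5 := pell_key (D := D) (b1 := b1) (b2 := b2) (s1 := s b1) (s2 := s b2)
      (by exact_mod_cast hD) (by exact_mod_cast k3) (by exact_mod_cast hlt) (by positivity)
      (by positivity) (by exact_mod_cast k1) (by exact_mod_cast k2) k4
    have k6 : 2 * b1 + 1 ≤ b2 := by exact_mod_cast k5
    have k7 : 2 * (b1 + 1) ≤ b2 + 1 := by omega
    have k8 : Nat.log 2 (2 * (b1 + 1)) ≤ Nat.log 2 (b2 + 1) := Nat.log_mono_right k7
    have k9 : Nat.log 2 (2 * (b1 + 1)) = Nat.log 2 (b1 + 1) + 1 := by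
      rw [mul_comm]
      exact Nat.log_mul_base (by norm_num) (by omega)
    omega
  have hcard : (pellS D B).card ≤ (range 3 ×ˢ range (1 + Nat.log 2 (B + 1))).card := by
    refine Finset.card_le_card_of_injOn
      (fun b => ((2 * b + 1) * s b % 3, Nat.log 2 (b + 1))) ?_ ?_
    · intro b hb
      have h1 := ((hmem b).1 hb).1.2
      rw [Finset.mem_coe, Finset.mem_product, Finset.mem_range, Finset.mem_range]
      refine ⟨Nat.mod_lt _ (by norm_num), ?_⟩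
      have h2 : Nat.log 2 (b + 1) ≤ Nat.log 2 (B + 1) := Nat.log_mono_right (by omega)
      simp only
      omega
    · intro b1 hb1 b2 hb2 h
      simp only [Prod.mk.injEq] at h
      rcases lt_trichotomy b1 b2 with hlt | heq | hlt
      · exact absurd h.2 (hkey b1 hb1 b2 hb2 hlt h.1).ne
      · exact heq
      · exact absurd h.2.symm (hkey b2 hb2 b1 hb1 hlt h.1.symm).ne
  rw [Finset.card_product, Finset.card_range, Finset.card_range] at hcard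
  exact hcard

end Pool.Agent.Helper46.CU
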